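import Pool.Agent.R444.PB.Main

/-!
# Uniqueness up to scaling for the power-bias fixed point equation

Let `μ`, `ν` be solutions with distribution functions `F`, `G`, and let `K`, `Λ` be the distribution
functions of their `ψ`-power-bias laws. From the equation
`(x^{-w} - b^{-w}) K(x) ≤ x^{-w} F(x) - b^{-w} F(b) ≤ (x^{-w} - b^{-w}) K(b)` for `0 < x < b`, so at a
right (left) end point of a component of `U = {F > G}` one has `K ≥ Λ` (`K ≤ Λ`), and hence
`μ^(ψ)(U) ≥ ν^(ψ)(U)`. On the other hand `μ(U ∩ (s, ∞)) + (F - G)^+(s) ≤ ν(U ∩ (s, ∞))`, which gives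
`μ_k(U) ≤ ν_k(U)` for all `k`, with equality for a common `k`-th moment only if `U` is empty.
-/

set_option autoImplicit false

open MeasureTheory

namespace Pool.Agent.Results.MP_ec0ea5_pr.UniqueUpToScaling

open Pool.Agent.R444.PB

/-- **Positive answer to Q1.** Let `w > 0` and let `ψ` be a probability distribution on the positive
integers. If `μ` and `ν` are solutions of the fixed point equation for `(w, ψ)`, then `ν` is the law
of `c X` for some constant `c > 0`, where `X` has law `μ`. -/
theorem result (w : ℝ) (hw : 0 < w) (ψ : ℕ → ℝ) (hψ0 : ψ 0 = 0) (hψ : ∀ k, 0 ≤ ψ k)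
    (hψ1 : HasSum ψ 1) (μ ν : Measure ℝ) (hμ : IsSolution w ψ μ) (hν : IsSolution w ψ ν) :
    ∃ c : ℝ, 0 < c ∧ ν = μ.map (fun x => c * x) :=
  unique_scale hμ hν hw hψ hψ0 hψ1

end Pool.Agent.Results.MP_ec0ea5_pr.UniqueUpToScaling
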